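import Pool.Agent.H139P.Ind

/-!
# The disjoint rank is at least half of the essential rank

The disjoint rank of `A` is the matroid parity number of the lines `⟨eᵢ, aᵢ⟩` (`aᵢ` the `i`-th
column, extended by zeros), and a diagonal perturbation of rank at most twice this number is found
from the orthogonal class structure of a generic combination of the bivectors `eᵢ ∧ aᵢ`.
-/

namespace Pool.Agent.Results.MP_852b03_co.DisjointRank

open Module Pool.Agent.H442R3.MPar Pool.Agent.H139P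

variable {F : Type*} [Field F] {Q₁ Q₂ : Finset ℕ}

/-- The restriction `A(X₁ × X₂)`. -/
def restr (A : Matrix Q₁ Q₂ F) (X₁ X₂ : Finset ℕ) (h₁ : X₁ ⊆ Q₁) (h₂ : X₂ ⊆ Q₂) :
    Matrix X₁ X₂ F := fun i j => A ⟨i, h₁ i.2⟩ ⟨j, h₂ j.2⟩

/-- The essential rank: the minimum of `rk (A + V)` over all `V` supported in the diagonal
positions. -/
noncomputable def erk (A : Matrix Q₁ Q₂ F) : ℕ :=
  sInf {r | ∃ V : Matrix Q₁ Q₂ F, (∀ (i : Q₁) (j : Q₂), (i : ℕ) ≠ (j : ℕ) → V i j = 0) ∧ (A + V).rank = r}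

/-- The disjoint rank: the maximum of `rk A(X₁ × X₂)` over disjoint `X₁ ⊆ Q₁`, `X₂ ⊆ Q₂`. -/
noncomputable def drk (A : Matrix Q₁ Q₂ F) : ℕ :=
  sSup {r | ∃ (X₁ X₂ : Finset ℕ) (h₁ : X₁ ⊆ Q₁) (h₂ : X₂ ⊆ Q₂), Disjoint X₁ X₂ ∧
    (restr A X₁ X₂ h₁ h₂).rank = r}

theorem exists_diag_disjoint (A : Matrix Q₁ Q₂ F) :
    ∃ (V : Matrix Q₁ Q₂ F) (X₁ X₂ : Finset ℕ) (h₁ : X₁ ⊆ Q₁) (h₂ : X₂ ⊆ Q₂),
      (∀ (i : Q₁) (j : Q₂), (i : ℕ) ≠ (j : ℕ) → V i j = 0) ∧ Disjoint X₁ X₂ ∧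
      (A + V).rank ≤ 2 * (restr A X₁ X₂ h₁ h₂).rank := by
  classical
  let Q : Finset ℕ := Q₁ ∪ Q₂
  let e : Q → (Q → F) := fun i => Pi.single i 1
  let a : Q → (Q → F) := fun j i =>
    if h : (i : ℕ) ∈ Q₁ ∧ (j : ℕ) ∈ Q₂ then A ⟨i, h.1⟩ ⟨j, h.2⟩ else 0
  have he : LinearIndependent F e := by
    have := (Pi.basisFun F Q).linearIndependent
    have h1 : e = ⇑(Pi.basisFun F Q) := by
      funext i
      rw [Pi.basisFun_apply]
    rw [h1]
    exact this
  obtain ⟨v, M, hM, hfr⟩ := parity_diag (Fintype.card Q) (Q → F) Q e a rfl he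
  let w : Q → (Q → F) := fun i => a i + v i • e i
  let X₂ : Finset ℕ := M.map (Function.Embedding.subtype _)
  have hX₂ : ∀ q : Q, (q : ℕ) ∈ X₂ ↔ q ∈ M := by
    intro q
    simp only [X₂, Finset.mem_map, Function.Embedding.coe_subtype]
    constructor
    · rintro ⟨p, hp, hpq⟩
      rwa [← Subtype.ext hpq]
    · intro h
      exact ⟨q, h, rfl⟩
  have h₂ : X₂ ⊆ Q₂ := by
    intro n hn
    simp only [X₂, Finset.mem_map, Function.Embedding.coe_subtype] at hn
    obtain ⟨q, hq, rfl⟩ := hn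
    by_contra hno
    have ha0 : a q = 0 := by
      funext i
      simp only [a, hno, and_false, dif_neg, not_false_eq_true, Pi.zero_apply]
    have h1 := hM 0 (Pi.single q 1) (by
      apply Finset.sum_eq_zero
      intro i _
      by_cases hi : i = q
      · subst hi
        rw [ha0]
        simp
      · simp [Pi.single_eq_of_ne hi]) q hq
    rw [Pi.single_eq_same] at h1
    exact one_ne_zero h1.2
  let X₁ : Finset ℕ := Q₁ \ X₂
  have h₁ : X₁ ⊆ Q₁ := Finset.sdiff_subset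
  refine ⟨fun i j => if (i : ℕ) = (j : ℕ) then v ⟨j, Finset.mem_union_right _ j.2⟩ else 0, X₁, X₂,
    h₁, h₂, fun i j hij => if_neg hij, Finset.sdiff_disjoint, ?_⟩
  -- the disjoint pair
  have hcard : Fintype.card X₂ = M.card := by
    rw [Fintype.card_coe, Finset.card_map]
  have hrank : (restr A X₁ X₂ h₁ h₂).rank = M.card := by
    rw [Matrix.rank_eq_finrank_span_cols, ← hcard]
    apply finrank_span_eq_card
    rw [Fintype.linearIndependent_iff]
    intro g hg j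
    have hg' : ∀ i : X₁, ∑ j : X₂, g j * A ⟨i, h₁ i.2⟩ ⟨j, h₂ j.2⟩ = 0 := by
      intro i
      have := congrFun hg i
      simpa [Finset.sum_apply, restr, Matrix.col] using this
    let β : Q → F := fun q => if h : (q : ℕ) ∈ X₂ then g ⟨q, h⟩ else 0
    let s : Q → F := ∑ q ∈ M, β q • a q
    have hs : ∀ i : Q, i ∉ M → s i = 0 := by
      intro i hi
      simp only [s, Finset.sum_apply, Pi.smul_apply, smul_eq_mul]
      by_cases hi1 : (i : ℕ) ∈ Q₁
      · have hiX : (i : ℕ) ∈ X₁ := by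
          rw [Finset.mem_sdiff]
          exact ⟨hi1, fun h => hi ((hX₂ i).1 h)⟩
        rw [← hg' ⟨i, hiX⟩]
        refine Finset.sum_bij' (fun q hq => (⟨q, (hX₂ q).2 hq⟩ : X₂))
          (fun j _ => (⟨j, Finset.mem_union_right _ (h₂ j.2)⟩ : Q)) (fun _ _ => Finset.mem_univ _)
          (fun j _ => (hX₂ _).1 j.2) (fun _ _ => rfl) (fun _ _ => rfl) ?_
        intro q hq
        have hq2 : (q : ℕ) ∈ X₂ := (hX₂ q).2 hq
        simp only [β, hq2, dif_pos, a, hi1, h₂ hq2, and_self]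
      · apply Finset.sum_eq_zero
        intro q _
        simp only [a, hi1, false_and, dif_neg, not_false_eq_true, mul_zero]
    have h5 := hM (fun q => - s q) β (by
      rw [Finset.sum_add_distrib]
      change (∑ q ∈ M, (- s q) • e q) + s = 0
      funext i
      simp only [Pi.add_apply, Finset.sum_apply, Pi.smul_apply, smul_eq_mul, Pi.zero_apply, e]
      by_cases hi : i ∈ M
      · rw [Finset.sum_eq_single i]
        · simp
        · intro q _ hq
          rw [Pi.single_eq_of_ne (Ne.symm hq), mul_zero]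
        · intro h; exact absurd hi h
      · rw [hs i hi, add_zero]
        apply Finset.sum_eq_zero
        intro q hq
        rw [Pi.single_eq_of_ne (fun h : i = q => hi (h ▸ hq)), mul_zero])
    have hjQ : (j : ℕ) ∈ Q := Finset.mem_union_right _ (h₂ j.2)
    have h6 := (h5 ⟨j, hjQ⟩ ((hX₂ ⟨j, hjQ⟩).1 j.2)).2
    simpa only [β, j.2, dif_pos, Subtype.coe_eta] using h6
  rw [hrank]
  -- the perturbed matrix
  refine le_trans ?_ hfr
  rw [Matrix.rank_eq_finrank_span_cols]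
  let R : (Q → F) →ₗ[F] (Q₁ → F) := LinearMap.funLeft F F
    (fun i : Q₁ => (⟨i, Finset.mem_union_left _ i.2⟩ : Q))
  refine le_trans (Submodule.finrank_mono ?_) (Submodule.finrank_map_le R _)
  rw [Submodule.span_le]
  rintro _ ⟨j, rfl⟩
  refine ⟨w ⟨j, Finset.mem_union_right _ j.2⟩, Submodule.subset_span ⟨_, rfl⟩, ?_⟩
  funext i
  change (if h : (i : ℕ) ∈ Q₁ ∧ (j : ℕ) ∈ Q₂ then A ⟨i, h.1⟩ ⟨j, h.2⟩ else 0) +
    v ⟨j, Finset.mem_union_right _ j.2⟩ * (Pi.single (⟨j, Finset.mem_union_right _ j.2⟩ : Q) (1 : F) :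
      Q → F) ⟨i, Finset.mem_union_left _ i.2⟩ =
    A i j + (if (i : ℕ) = (j : ℕ) then v ⟨j, Finset.mem_union_right _ j.2⟩ else 0)
  rw [dif_pos ⟨i.2, j.2⟩]
  by_cases hij : (i : ℕ) = (j : ℕ)
  · rw [if_pos hij]
    have : (⟨(i : ℕ), Finset.mem_union_left _ i.2⟩ : Q) =
      ⟨(j : ℕ), Finset.mem_union_right _ j.2⟩ := Subtype.ext hij
    rw [this, Pi.single_eq_same, mul_one]
  · rw [if_neg hij, Pi.single_eq_of_ne (fun h => hij (congrArg Subtype.val h)), mul_zero]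

/-- For every matrix over every field, the essential rank is at most twice the disjoint rank. -/
theorem result : ∀ {F : Type*} [Field F] {Q₁ Q₂ : Finset ℕ} (A : Matrix Q₁ Q₂ F),
    erk A ≤ 2 * drk A := by
  intro F _ Q₁ Q₂ A
  obtain ⟨V, X₁, X₂, h₁, h₂, hV, hdis, hr⟩ := exists_diag_disjoint A
  have h3 : erk A ≤ (A + V).rank := Nat.sInf_le ⟨V, hV, rfl⟩
  have hbdd : BddAbove {r | ∃ (X₁ X₂ : Finset ℕ) (h₁ : X₁ ⊆ Q₁) (h₂ : X₂ ⊆ Q₂), Disjoint X₁ X₂ ∧
      (restr A X₁ X₂ h₁ h₂).rank = r} := by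
    refine ⟨Q₂.card, ?_⟩
    rintro r ⟨Y₁, Y₂, k₁, k₂, -, rfl⟩
    refine (Matrix.rank_le_card_width _).trans ?_
    rw [Fintype.card_coe]
    exact Finset.card_le_card k₂
  have h4 : (restr A X₁ X₂ h₁ h₂).rank ≤ drk A := le_csSup hbdd ⟨X₁, X₂, h₁, h₂, hdis, rfl⟩
  omega

end Pool.Agent.Results.MP_852b03_co.DisjointRank
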